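import Pool.Agent.H686R2.Sil.Forc

/-!
# The countable support product of Silver forcing and its Sacks property
-/

set_option autoImplicit false

namespace Pool.Agent.H686R2.Sil

open Set

/-- The conditions of the countable support product of `I` copies of Silver forcing: in every
coordinate a partial function from `ℕ` to `Bool` with coinfinite domain (`none` means undefined);
only countably many coordinates are nonempty. -/
def Cond (I : Type) : Type :=
  {p : I → ℕ → Option Bool // (∀ i, {n | p i n = none}.Infinite) ∧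
    {i | ∃ n, p i n ≠ none}.Countable}

variable {I : Type}

/-- `q` is stronger than `p` iff `q` extends `p` in every coordinate. -/
instance : Preorder (Cond I) where
  le q p := ∀ i n b, p.1 i n = some b → q.1 i n = some b
  le_refl p := fun _ _ _ h => h
  le_trans p q r hpq hqr := fun i n b h => hpq i n b (hqr i n b h)

theorem le_def {p q : Cond I} : q ≤ p ↔ ∀ i n b, p.1 i n = some b → q.1 i n = some b := Iff.rfl

instance : Nonempty (Cond I) :=
  ⟨⟨fun _ _ => none, fun _ => by simpa using infinite_univ, by simp⟩⟩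

theorem none_of_le {p q : Cond I} (h : q ≤ p) {i : I} {n : ℕ} (hq : q.1 i n = none) :
    p.1 i n = none := by
  by_contra hcon
  obtain ⟨b, hb⟩ := Option.ne_none_iff_exists'.1 hcon
  have := h i n b hb
  rw [hq] at this
  exact absurd this (by simp)

open Classical in
/-- change `p` on the finite set `E` -/
noncomputable def chg (p : Cond I) (E : Finset (I × ℕ)) (σ : I × ℕ → Option Bool) : Cond I :=
  ⟨fun i n => if (i, n) ∈ E then σ (i, n) else p.1 i n, by
    constructor
    · intro i
      have h1 : ({n | p.1 i n = none} \ ((E.image Prod.snd : Finset ℕ) : Set ℕ)).Infinite :=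
        (p.2.1 i).sdiff (Finset.finite_toSet _)
      refine h1.mono ?_
      rintro n ⟨hn, hE⟩
      have h2 : (i, n) ∉ E := fun h => hE (by
        simp only [Finset.coe_image, Set.mem_image, Finset.mem_coe]
        exact ⟨(i, n), h, rfl⟩)
      simp only [Set.mem_ofPred_eq, if_neg h2]
      exact hn
    · refine (p.2.2.union (Finset.countable_toSet (E.image Prod.fst))).mono ?_
      rintro i ⟨n, hn⟩
      by_cases h : (i, n) ∈ E
      · right
        simp only [Finset.coe_image, Set.mem_image, Finset.mem_coe]
        exact ⟨(i, n), h, rfl⟩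
      · left
        simp only [if_neg h] at hn
        exact ⟨n, hn⟩⟩

theorem chg_in {p : Cond I} {E : Finset (I × ℕ)} {σ : I × ℕ → Option Bool} {e : I × ℕ}
    (h : e ∈ E) : (chg p E σ).1 e.1 e.2 = σ e := by
  simp only [chg]
  rw [if_pos h]

theorem chg_out {p : Cond I} {E : Finset (I × ℕ)} {σ : I × ℕ → Option Bool} {e : I × ℕ}
    (h : e ∉ E) : (chg p E σ).1 e.1 e.2 = p.1 e.1 e.2 := by
  simp only [chg]
  rw [if_neg h]

open Classical in
/-- the total assignment on `E` given by `σ : E → Bool` -/
noncomputable def ext (E : Finset (I × ℕ)) (σ : E → Bool) : I × ℕ → Option Bool :=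
  fun e => if h : e ∈ E then some (σ ⟨e, h⟩) else none

theorem ext_in {E : Finset (I × ℕ)} {σ : E → Bool} {e : I × ℕ} (h : e ∈ E) :
    ext E σ e = some (σ ⟨e, h⟩) := by
  simp only [ext, dif_pos h]

/-- `p` with the values `σ` on `E` -/
noncomputable def setv (p : Cond I) (E : Finset (I × ℕ)) (σ : E → Bool) : Cond I :=
  chg p E (ext E σ)

/-- `p` is undefined on `E` -/
def Free (p : Cond I) (E : Finset (I × ℕ)) : Prop := ∀ e ∈ E, p.1 e.1 e.2 = none

theorem setv_mono {p q : Cond I} (h : q ≤ p) (E : Finset (I × ℕ)) (σ : E → Bool) :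
    setv q E σ ≤ setv p E σ := by
  intro i n b hb
  by_cases hE : (i, n) ∈ E
  · have h1 := chg_in (p := p) (σ := ext E σ) hE
    have h2 := chg_in (p := q) (σ := ext E σ) hE
    simp only at h1 h2
    unfold setv at hb ⊢
    rw [h1] at hb
    rw [h2]
    exact hb
  · have h1 := chg_out (p := p) (σ := ext E σ) hE
    have h2 := chg_out (p := q) (σ := ext E σ) hE
    simp only at h1 h2
    unfold setv at hb ⊢
    rw [h1] at hb
    rw [h2]
    exact h i n b hb

/-- one step of the fusion -/
theorem step_aux {D : Set (Cond I)} (hD : ∀ p ∈ D, ∀ q ≤ p, q ∈ D) (E : Finset (I × ℕ))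
    (T : Finset (E → Bool)) : ∀ p : Cond I, Free p E → (∀ q ≤ p, ∃ r ≤ q, r ∈ D) →
    ∃ q ≤ p, Free q E ∧ ∀ σ ∈ T, setv q E σ ∈ D := by
  classical
  induction T using Finset.induction_on with
  | empty => exact fun p hp _ => ⟨p, le_rfl, hp, fun σ hσ => absurd hσ (Finset.notMem_empty _)⟩
  | insert τ T _ ih =>
    intro p hp hd
    obtain ⟨q, hq, hqE, hqT⟩ := ih p hp hd
    have hsetle : setv q E τ ≤ p := by
      intro i n b hb
      by_cases hE : (i, n) ∈ E
      · have := hp _ hE
        simp only at this
        rw [this] at hb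
        exact absurd hb (by simp)
      · have h1 := chg_out (p := q) (σ := ext E τ) hE
        simp only at h1
        unfold setv
        rw [h1]
        exact hq i n b hb
    obtain ⟨r, hr, hrD⟩ := hd _ hsetle
    let q' : Cond I := chg r E fun _ => none
    have hq'E : Free q' E := fun e he => chg_in he
    have hq'q : q' ≤ q := by
      intro i n b hb
      by_cases hE : (i, n) ∈ E
      · have := hqE _ hE
        simp only at this
        rw [this] at hb
        exact absurd hb (by simp)
      · have h1 := chg_out (p := r) (σ := fun _ => none) hE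
        simp only at h1
        change q'.1 i n = _
        rw [show q'.1 i n = r.1 i n from h1]
        apply hr
        have h2 := chg_out (p := q) (σ := ext E τ) hE
        simp only at h2
        unfold setv
        rw [h2]
        exact hb
    refine ⟨q', hq'q.trans hq, hq'E, fun σ hσ => ?_⟩
    rcases Finset.mem_insert.1 hσ with rfl | hσ
    · refine hD r hrD _ ?_
      intro i n b hb
      by_cases hE : (i, n) ∈ E
      · have h1 := chg_in (p := q') (σ := ext E σ) hE
        simp only at h1
        unfold setv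
        rw [h1]
        have h2 := chg_in (p := q) (σ := ext E σ) hE
        simp only at h2
        have h3 : (setv q E σ).1 i n = some (σ ⟨(i, n), hE⟩) := by
          unfold setv
          rw [h2, ext_in hE]
        have h4 := hr _ _ _ h3
        rw [hb] at h4
        rw [ext_in hE, h4]
      · have h1 := chg_out (p := q') (σ := ext E σ) hE
        simp only at h1
        unfold setv
        rw [h1]
        have h2 := chg_out (p := r) (σ := fun _ => none) hE
        simp only at h2
        rw [show q'.1 i n = r.1 i n from h2]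
        exact hb
    · exact hD _ (hqT σ hσ) _ (setv_mono hq'q E σ)

theorem step {D : Set (Cond I)} (hD : ∀ p ∈ D, ∀ q ≤ p, q ∈ D) (E : Finset (I × ℕ))
    (p : Cond I) (hp : Free p E) (hd : ∀ q ≤ p, ∃ r ≤ q, r ∈ D) :
    ∃ q ≤ p, Free q E ∧ ∀ σ : E → Bool, setv q E σ ∈ D := by
  classical
  obtain ⟨q, h1, h2, h3⟩ := step_aux hD E Finset.univ p hp hd
  exact ⟨q, h1, h2, fun σ => h3 σ (Finset.mem_univ _)⟩

/-- an enumeration covering the support of a condition -/
theorem exists_enum [Nonempty I] (p : Cond I) : ∃ e : ℕ → I, ∀ i n, p.1 i n ≠ none → i ∈ range e := by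
  classical
  obtain ⟨i0⟩ := ‹Nonempty I›
  have h1 : ({i | ∃ n, p.1 i n ≠ none} ∪ {i0}).Countable := p.2.2.union (countable_singleton i0)
  obtain ⟨e, he⟩ := h1.exists_eq_range ⟨i0, Or.inr rfl⟩
  refine ⟨e, fun i n hn => ?_⟩
  rw [← he]
  exact Or.inl ⟨n, hn⟩

/-- a fixed enumeration covering the support of `p` -/
noncomputable def enum [Nonempty I] (p : Cond I) : ℕ → I := Classical.choose (exists_enum p)

theorem enum_spec [Nonempty I] (p : Cond I) {i : I} {n : ℕ} (h : p.1 i n ≠ none) :
    i ∈ range (enum p) := Classical.choose_spec (exists_enum p) i n h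

/-- the states of the fusion -/
structure St (p : Cond I) where
  q : Cond I
  E : Finset (I × ℕ)
  h : ℕ → ℕ → I
  hq : q ≤ p
  hf : Free q E

/-- the coordinate treated at step `n` -/
def crd (h : ℕ → ℕ → I) (n : ℕ) : I := h n.unpair.1.unpair.1 n.unpair.1.unpair.2

theorem next [Nonempty I] {A : Type} {Ej : ℕ → A → Set (Cond I)}
    (hE : ∀ j a, ∀ p ∈ Ej j a, ∀ q ≤ p, q ∈ Ej j a)
    {p : Cond I} (hd : ∀ j, ∀ q ≤ p, ∃ r ≤ q, ∃ a, r ∈ Ej j a) (n : ℕ) (s : St p) :
    ∃ s' : St p, s'.q ≤ s.q ∧ s.E ⊆ s'.E ∧ s'.E.card ≤ s.E.card + 1 ∧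
      (∀ σ : s.E → Bool, ∃ a, setv s'.q s.E σ ∈ Ej n a) ∧
      (∃ x, (crd s.h n, x) ∈ s'.E ∧ (crd s.h n, x) ∉ s.E) ∧
      s'.h = Function.update s.h (n + 1) (enum s'.q) := by
  classical
  obtain ⟨q, h1, h2, h3⟩ := step (D := {r | ∃ a, r ∈ Ej n a})
    (fun p hp q hq => by
      obtain ⟨a, ha⟩ := hp
      exact ⟨a, hE n a p ha q hq⟩) s.E s.q s.hf
    (fun q hq => hd n q (hq.trans s.hq))
  obtain ⟨x, hx1, hx2⟩ : ∃ x, q.1 (crd s.h n) x = none ∧ (crd s.h n, x) ∉ s.E := by
    have h4 : ({x | q.1 (crd s.h n) x = none} \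
        ((s.E.image Prod.snd : Finset ℕ) : Set ℕ)).Infinite :=
      (q.2.1 _).sdiff (Finset.finite_toSet _)
    obtain ⟨x, hx, hxE⟩ := h4.nonempty
    refine ⟨x, hx, fun h => hxE ?_⟩
    simp only [Finset.coe_image, Set.mem_image, Finset.mem_coe]
    exact ⟨(crd s.h n, x), h, rfl⟩
  refine ⟨⟨q, insert (crd s.h n, x) s.E, Function.update s.h (n + 1) (enum q), h1.trans s.hq, ?_⟩,
    h1, Finset.subset_insert _ _, Finset.card_insert_le _ _, h3, ⟨x, Finset.mem_insert_self _ _,
      hx2⟩, rfl⟩
  intro e he
  rcases Finset.mem_insert.1 he with rfl | he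
  · exact hx1
  · exact h2 e he

/-- The Sacks property: if the sets `⋃ a, Ej j a` are open and dense below `p`, then some `q ≤ p`
reduces `a` to one of `2 ^ j` possibilities for every `j`. -/
theorem sacks [Nonempty I] {A : Type} {Ej : ℕ → A → Set (Cond I)}
    (hE : ∀ j a, ∀ p ∈ Ej j a, ∀ q ≤ p, q ∈ Ej j a)
    {p : Cond I} (hd : ∀ j, ∀ q ≤ p, ∃ r ≤ q, ∃ a, r ∈ Ej j a) :
    ∃ q ≤ p, ∃ K : ℕ → Finset A, (∀ j, (K j).card ≤ 2 ^ j) ∧
      ∀ j, ∀ r ≤ q, ∃ r' ≤ r, ∃ a ∈ K j, r' ∈ Ej j a := by
  classical
  choose nx hx1 hx2 hx3 hx4 hx5 hx6 using next hE hd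
  let s0 : St p := ⟨p, ∅, fun _ => enum p, le_rfl, fun e he => absurd he (Finset.notMem_empty _)⟩
  let s : ℕ → St p := fun n => Nat.rec s0 (fun n t => nx n t) n
  have hs : ∀ n, s (n + 1) = nx n (s n) := fun n => rfl
  have hmono : ∀ m n, m ≤ n → (s n).q ≤ (s m).q := by
    intro m n hmn
    induction hmn with
    | refl => exact le_rfl
    | step _ ih => exact le_trans (by rw [hs]; exact hx1 _ _) ih
  have hEmono : ∀ m n, m ≤ n → (s m).E ⊆ (s n).E := by
    intro m n hmn
    induction hmn with
    | refl => exact Finset.Subset.refl _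
    | step _ ih => exact ih.trans (by rw [hs]; exact hx2 _ _)
  have hcard : ∀ n, (s n).E.card ≤ n := by
    intro n
    induction n with
    | zero => exact le_of_eq rfl
    | succ n ih =>
      rw [hs]
      exact (hx3 _ _).trans (by omega)
  have hhist : ∀ n m, m ≤ n → (s n).h m = enum (s m).q := by
    intro n
    induction n with
    | zero =>
      intro m hm
      obtain rfl : m = 0 := by omega
      rfl
    | succ n ih =>
      intro m hm
      rw [hs, hx6]
      rcases Nat.lt_or_ge m (n + 1) with h | h
      · rw [Function.update_of_ne (by omega)]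
        exact ih m (by omega)
      · obtain rfl : m = n + 1 := by omega
        rw [Function.update_self, hs]
  have hfree : ∀ N, ∀ e ∈ (s N).E, ∀ m, (s m).q.1 e.1 e.2 = none := by
    intro N e he m
    rcases le_total m N with h | h
    · exact none_of_le (hmono m N h) ((s N).hf e he)
    · exact (s m).hf e (hEmono N m h he)
  -- the limit
  let f : I → ℕ → Option Bool := fun i n =>
    if h : ∃ b m, (s m).q.1 i n = some b then some (Classical.choose h) else none
  have hf1 : ∀ i n m b, (s m).q.1 i n = some b → f i n = some b := by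
    intro i n m b hb
    have h : ∃ b m, (s m).q.1 i n = some b := ⟨b, m, hb⟩
    obtain ⟨m', hm'⟩ := Classical.choose_spec h
    have h2 : Classical.choose h = b := by
      rcases le_total m m' with h3 | h3
      · have := hmono m m' h3 i n b hb
        rw [this] at hm'
        exact (Option.some.inj hm').symm
      · have := hmono m' m h3 i n _ hm'
        rw [this] at hb
        exact Option.some.inj hb
    simp only [f, dif_pos h, h2]
  have hf2 : ∀ i n, (∀ m, (s m).q.1 i n = none) → f i n = none := by
    intro i n h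
    have h' : ¬ ∃ b m, (s m).q.1 i n = some b := by
      rintro ⟨b, m, hb⟩
      rw [h m] at hb
      exact absurd hb (by simp)
    simp only [f, dif_neg h']
  have hf3 : ∀ i n, f i n ≠ none → ∃ m, (s m).q.1 i n ≠ none := by
    intro i n h
    by_contra hcon
    push Not at hcon
    exact h (hf2 i n hcon)
  have hinf : ∀ i, {n | f i n = none}.Infinite := by
    intro i
    by_cases hi : ∃ n, f i n ≠ none
    · obtain ⟨n, hn⟩ := hi
      obtain ⟨m, hm⟩ := hf3 i n hn
      obtain ⟨k, hk⟩ := enum_spec _ hm
      let N : ℕ → ℕ := fun t => Nat.pair (Nat.pair m k) t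
      have hcrd : ∀ t, crd (s (N t)).h (N t) = i := by
        intro t
        have h1 : (N t).unpair.1 = Nat.pair m k := by simp [N]
        unfold crd
        rw [h1, Nat.unpair_pair]
        simp only
        rw [hhist (N t) m ?_]
        · exact hk
        · calc m ≤ Nat.pair m k := Nat.left_le_pair _ _
            _ ≤ N t := Nat.left_le_pair _ _
      have hx : ∀ t, ∃ x, (i, x) ∈ (s (N t + 1)).E ∧ (i, x) ∉ (s (N t)).E := by
        intro t
        obtain ⟨x, h1, h2⟩ := hx5 (N t) (s (N t))
        rw [hcrd t] at h1 h2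
        exact ⟨x, h1, h2⟩
      choose x hxa hxb using hx
      have hNmono : StrictMono N := fun a b hab => Nat.pair_lt_pair_right _ hab
      refine Set.infinite_of_injective_forall_mem (f := x) ?_ ?_
      · intro a b hab
        by_contra hne
        rcases lt_or_gt_of_ne hne with h | h
        · have h1 := hEmono (N a + 1) (N b) (hNmono h) (hxa a)
          rw [hab] at h1
          exact hxb b h1
        · have h1 := hEmono (N b + 1) (N a) (hNmono h) (hxa b)
          rw [← hab] at h1
          exact hxb a h1
      · intro t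
        exact hf2 i _ (fun m => hfree (N t + 1) (i, x t) (hxa t) m)
    · push Not at hi
      have : {n | f i n = none} = univ := by
        ext n
        simp [hi n]
      rw [this]
      exact infinite_univ
  have hcount : {i | ∃ n, f i n ≠ none}.Countable := by
    refine (countable_iUnion fun m => (s m).q.2.2).mono ?_
    rintro i ⟨n, hn⟩
    obtain ⟨m, hm⟩ := hf3 i n hn
    exact mem_iUnion.2 ⟨m, n, hm⟩
  let q : Cond I := ⟨f, hinf, hcount⟩
  have hqs : ∀ m, q ≤ (s m).q := fun m i n b hb => hf1 i n m b hb
  have hchoice : ∀ n, ∀ σ : (s n).E → Bool, ∃ a, setv (s (n + 1)).q (s n).E σ ∈ Ej n a := by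
    intro n σ
    exact hx4 n (s n) σ
  choose av hav using hchoice
  refine ⟨q, (hqs 0).trans le_rfl, fun n => Finset.univ.image (av n), ?_, ?_⟩
  · intro n
    refine Finset.card_image_le.trans ?_
    rw [Finset.card_univ, Fintype.card_fun, Fintype.card_bool, Fintype.card_coe]
    exact Nat.pow_le_pow_right (by norm_num) (hcard n)
  · intro n r hr
    let σ : (s n).E → Bool := fun e => (r.1 e.1.1 e.1.2).getD false
    refine ⟨setv r (s n).E σ, ?_, av n σ, Finset.mem_image_of_mem _ (Finset.mem_univ _), ?_⟩
    · intro i k b hb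
      by_cases hE' : (i, k) ∈ (s n).E
      · have h1 := chg_in (p := r) (σ := ext (s n).E σ) hE'
        simp only at h1
        unfold setv
        rw [h1, ext_in hE']
        simp only [σ, hb, Option.getD_some]
      · have h1 := chg_out (p := r) (σ := ext (s n).E σ) hE'
        simp only at h1
        unfold setv
        rw [h1]
        exact hb
    · exact hE _ _ _ (hav n σ) _ (setv_mono (hr.trans (hqs (n + 1))) _ _)

end Pool.Agent.H686R2.Sil
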