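import Pool.Agent.H686R2.Sil.PP
import Pool.Agent.H686R2.Sil.Cond

/-!
# A small set of coordinates which decides the ground model part of the ultrafilter
-/

set_option autoImplicit false

namespace Pool.Agent.H686R2.Sil

open Set Cardinal

variable {I : Type} [Nonempty I]

set_option linter.unusedSectionVars false

section

variable (W : Set ((ℕ → Set (Cond I)) × Cond I)) (p0 : Cond I)

/-- `u` is a witness for the pattern `f` on the coordinates `c` and for `B ∈ W` -/
def Phi (c : ℕ → I) (f : ℕ → ℕ → Option Bool) (B : ℕ → Prop) (u : Cond I) : Prop :=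
  u ≤ p0 ∧ u ∈ fmem (ck B) W ∧ ∀ k, u.1 (c k) = f k

open Classical in
/-- a chosen witness -/
noncomputable def wit (c : ℕ → I) (f : ℕ → ℕ → Option Bool) (B : ℕ → Prop) : Cond I :=
  if h : ∃ u, Phi W p0 c f B u then Classical.choose h else p0

theorem wit_spec {c : ℕ → I} {f : ℕ → ℕ → Option Bool} {B : ℕ → Prop}
    (h : ∃ u, Phi W p0 c f B u) : Phi W p0 c f B (wit W p0 c f B) := by
  unfold wit
  rw [dif_pos h]
  exact Classical.choose_spec h

/-- the closure -/
inductive Dl : I → Prop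
  | base (n : ℕ) : Dl (enum p0 n)
  | step (c : ℕ → I) (hc : ∀ k, Dl (c k)) (f : ℕ → ℕ → Option Bool) (B : ℕ → Prop) (n : ℕ) :
      Dl (enum (wit W p0 c f B) n)

/-- labels of the terms -/
abbrev Lab : Type := ℕ ⊕ ((ℕ → ℕ → Option Bool) × (ℕ → Prop) × ℕ)

/-- arities of the terms -/
def Ar : Lab → Type := Sum.elim (fun _ => Empty) (fun _ => ℕ)

/-- the value of a term -/
noncomputable def ev : WType Ar → I :=
  WType.elim I fun t => match t with
    | ⟨Sum.inl n, _⟩ => enum p0 n
    | ⟨Sum.inr (f, B, n), ch⟩ => enum (wit W p0 ch f B) n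

theorem ev_surj {i : I} (h : Dl W p0 i) : ∃ w, ev W p0 w = i := by
  induction h with
  | base n => exact ⟨WType.mk (Sum.inl n) Empty.elim, rfl⟩
  | step c hc f B n ih =>
    choose w hw using ih
    refine ⟨WType.mk (Sum.inr (f, B, n)) w, ?_⟩
    have : (fun k => ev W p0 (w k)) = c := funext hw
    change enum (wit W p0 (fun k => ev W p0 (w k)) f B) n = _
    rw [this]

theorem card_Dl : #{i // Dl W p0 i} ≤ 𝔠 := by
  have h1 : #{i // Dl W p0 i} ≤ #(WType Ar) := by
    choose w hw using fun i : {i // Dl W p0 i} => ev_surj W p0 i.2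
    refine Cardinal.mk_le_of_injective (f := w) fun a b hab => ?_
    apply Subtype.ext
    rw [← hw a, ← hw b, hab]
  refine h1.trans (WType.cardinalMk_le_of_le' ?_)
  have hL : #Lab ≤ 𝔠 := by
    have e1 : #(ℕ → ℕ → Option Bool) = 𝔠 := by
      rw [← Cardinal.mk_congr (Equiv.curry ℕ ℕ (Option Bool)), ← Cardinal.power_def]
      have h2 : (3 : Cardinal) ^ ℵ₀ = 𝔠 := by
        have := Cardinal.nat_power_aleph0 (n := 3) (by norm_num)
        exact_mod_cast this
      simp only [Cardinal.mk_prod, Cardinal.lift_id, Cardinal.mk_nat, Cardinal.aleph0_mul_aleph0]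
      have h3 : #(Option Bool) = 3 := by
        rw [Cardinal.mk_fintype]
        norm_num
      rw [h3]
      exact h2
    have e2 : #(ℕ → Prop) = 𝔠 := by
      rw [← Cardinal.power_def, Cardinal.mk_nat, Cardinal.mk_Prop, Cardinal.two_power_aleph0]
    simp only [Cardinal.mk_sum, Cardinal.mk_prod, Cardinal.lift_id, Cardinal.mk_nat, e1, e2]
    rw [Cardinal.continuum_mul_aleph0, Cardinal.continuum_mul_self, Cardinal.aleph0_add_continuum]
  have hA : ∀ a : Lab, 𝔠 ^ #(Ar a) ≤ 𝔠 := by
    rintro (n | t)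
    · change 𝔠 ^ #Empty ≤ 𝔠
      rw [Cardinal.mk_eq_zero Empty, Cardinal.power_zero]
      exact_mod_cast (Cardinal.nat_lt_continuum 1).le
    · change 𝔠 ^ #ℕ ≤ 𝔠
      rw [Cardinal.mk_nat, Cardinal.continuum_power_aleph0]
  simp only [Cardinal.lift_id]
  calc (Cardinal.sum fun a : Lab => 𝔠 ^ #(Ar a)) ≤ Cardinal.sum fun _ : Lab => 𝔠 :=
        Cardinal.sum_le_sum _ _ hA
    _ = #Lab * 𝔠 := by rw [Cardinal.sum_const']
    _ ≤ 𝔠 * 𝔠 := mul_le_mul' hL le_rfl
    _ = 𝔠 := Cardinal.continuum_mul_self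

end

open Classical in
/-- the restriction of a condition to a set of coordinates -/
noncomputable def res (p : Cond I) (Δ : Set I) : Cond I :=
  ⟨fun i => if i ∈ Δ then p.1 i else fun _ => none, by
    constructor
    · intro i
      by_cases h : i ∈ Δ
      · simp only [if_pos h]
        exact p.2.1 i
      · simp only [if_neg h]
        simpa using infinite_univ
    · refine p.2.2.mono ?_
      rintro i ⟨n, hn⟩
      by_cases h : i ∈ Δ
      · simp only [if_pos h] at hn
        exact ⟨n, hn⟩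
      · simp only [if_neg h] at hn
        exact absurd rfl hn⟩

theorem res_in {p : Cond I} {Δ : Set I} {i : I} (h : i ∈ Δ) : (res p Δ).1 i = p.1 i := by
  simp only [res, if_pos h]

theorem res_out {p : Cond I} {Δ : Set I} {i : I} (h : i ∉ Δ) :
    (res p Δ).1 i = fun _ => none := by
  simp only [res, if_neg h]

theorem le_res (p : Cond I) (Δ : Set I) : p ≤ res p Δ := by
  intro i n b hb
  by_cases h : i ∈ Δ
  · rw [res_in h] at hb
    exact hb
  · rw [res_out h] at hb
    exact absurd hb (by simp)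

theorem supp_sub {W : Set ((ℕ → Set (Cond I)) × Cond I)} {p0 : Cond I} {i : I} {n : ℕ}
    (h : p0.1 i n ≠ none) : Dl W p0 i := by
  obtain ⟨k, rfl⟩ := enum_spec p0 h
  exact Dl.base k

theorem res_le {W : Set ((ℕ → Set (Cond I)) × Cond I)} {p0 t : Cond I} (h : t ≤ p0) :
    res t {i | Dl W p0 i} ≤ p0 := by
  intro i n b hb
  have h1 : Dl W p0 i := supp_sub (n := n) (by rw [hb]; simp)
  rw [res_in (show i ∈ {i | Dl W p0 i} from h1)]
  exact h i n b hb

/-- the membership of ground model sets is decided by the coordinates in the closure -/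
theorem restrict {W : Set ((ℕ → Set (Cond I)) × Cond I)} {p0 : Cond I} (hP : PP W p0)
    {t : Cond I} (ht : t ≤ p0) {B : ℕ → Prop} (hB : t ∈ fmem (ck B) W) :
    res t {i | Dl W p0 i} ∈ fmem (ck B) W := by
  classical
  set Δ : Set I := {i | Dl W p0 i} with hΔ
  refine (ro_fmem _ _).reg fun u hu => ?_
  by_contra hcon
  push Not at hcon
  have hup0 : u ≤ p0 := hu.trans (res_le ht)
  -- a condition forcing the complement
  obtain ⟨u1, hu1, hu1'⟩ : ∃ u1 ≤ u, u1 ∈ fmem (ck fun n => ¬ B n) W := by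
    obtain ⟨r, hr, hr'⟩ := hP.compl u hup0 (ck B) (ck fun n => ¬ B n) (fun n r _ => by
      rw [mem_meets_ck]
      constructor
      · intro h s _ hs
        exact h (mem_meets_ck.1 hs)
      · intro h h'
        exact h r le_rfl (mem_meets_ck.2 h'))
    rcases hr' with h | h
    · exact absurd h (hcon r hr)
    · exact ⟨r, hr, h⟩
  -- the countable set of coordinates
  let C : Set I := ({i | ∃ n, t.1 i n ≠ none} ∪ {i | ∃ n, u1.1 i n ≠ none}) ∩ Δ ∪ {enum p0 0}
  have hCc : C.Countable :=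
    ((t.2.2.union u1.2.2).mono inter_subset_left).union (countable_singleton _)
  obtain ⟨c, hc⟩ := hCc.exists_eq_range ⟨enum p0 0, Or.inr rfl⟩
  have hcΔ : ∀ k, Dl W p0 (c k) := by
    intro k
    have : c k ∈ C := by rw [hc]; exact mem_range_self k
    rcases this with h | h
    · exact h.2
    · rw [show c k = enum p0 0 from h]
      exact Dl.base 0
  let f : ℕ → ℕ → Option Bool := fun k => u1.1 (c k)
  have hex : ∃ u, Phi W p0 c f (fun n => ¬ B n) u := ⟨u1, hu1.trans hup0, hu1', fun k => rfl⟩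
  obtain ⟨hw1, hw2, hw3⟩ := wit_spec W p0 hex
  set u2 := wit W p0 c f fun n => ¬ B n with hu2
  have hu2Δ : ∀ i n, u2.1 i n ≠ none → i ∈ Δ := by
    intro i n hn
    obtain ⟨k, hk⟩ := enum_spec u2 hn
    rw [← hk, hu2]
    exact Dl.step c hcΔ f _ k
  -- the common extension
  let v : Cond I := ⟨fun i => if i ∈ Δ then u2.1 i else t.1 i, by
    constructor
    · intro i
      by_cases h : i ∈ Δ
      · simp only [if_pos h]
        exact u2.2.1 i
      · simp only [if_neg h]
        exact t.2.1 i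
    · refine (t.2.2.union u2.2.2).mono ?_
      rintro i ⟨n, hn⟩
      by_cases h : i ∈ Δ
      · simp only [if_pos h] at hn
        exact Or.inr ⟨n, hn⟩
      · simp only [if_neg h] at hn
        exact Or.inl ⟨n, hn⟩⟩
  have hvin : ∀ i ∈ Δ, v.1 i = u2.1 i := fun i hi => by simp only [v, if_pos hi]
  have hvout : ∀ i ∉ Δ, v.1 i = t.1 i := fun i hi => by simp only [v, if_neg hi]
  have hvu : v ≤ u2 := by
    intro i n b hb
    rw [hvin i (hu2Δ i n (by rw [hb]; simp))]
    exact hb
  have hvt : v ≤ t := by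
    intro i n b hb
    by_cases hi : i ∈ Δ
    · have hiC : i ∈ C := Or.inl ⟨Or.inl ⟨n, by rw [hb]; simp⟩, hi⟩
      rw [hc] at hiC
      obtain ⟨k, rfl⟩ := hiC
      rw [hvin _ hi, hw3 k]
      apply (hu1.trans hu) (c k) n b
      rw [res_in hi]
      exact hb
    · rw [hvout i hi]
      exact hb
  have hvB : v ∈ fmem (ck B) W := (ro_fmem _ _).down hB hvt
  have hvB' : v ∈ fmem (ck fun n => ¬ B n) W := (ro_fmem _ _).down hw2 hvu
  obtain ⟨r, _, n, _, h1, h2⟩ := (hP.mono (hvt.trans ht)).inf2 hvB hvB' 0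
  exact mem_meets_ck.1 h2 (mem_meets_ck.1 h1)

end Pool.Agent.H686R2.Sil
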