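import Mathlib

/-!
# The combinatorial lemma: three extensions of a Silver condition
-/

set_option autoImplicit false

namespace Pool.Agent.H686R2.Sil

open Finset

/-- the moduli -/
def md (j : ℕ) : ℕ := 4 ^ j * (2 * j + 5) + 1

instance (j : ℕ) : NeZero (md j) := ⟨by unfold md; omega⟩

theorem md_pos (j : ℕ) : 0 < md j := by unfold md; omega

/-- the number of ones of `z` below `k` -/
def cnt (z : ℕ → Bool) (k : ℕ) : ℕ := ((range k).filter fun l => z l = true).card

/-- `z` extends `q` -/
def ExtF (z : ℕ → Bool) (q : ℕ → Option Bool) : Prop := ∀ n b, q n = some b → z n = b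

/-- `δ` separates -/
def Good (S : ℕ → Finset ℕ) (j δ : ℕ) : Prop :=
  ∀ s ∈ S j, ∀ s' ∈ S j, ∀ f f' : ℕ, f ≤ j + 1 → f' ≤ j + 1 → ¬ s' + f ≡ s + δ + f' [MOD md j]

theorem exists_good (S : ℕ → Finset ℕ) (hS : ∀ j, (S j).card ≤ 2 ^ j) (j N : ℕ) :
    ∃ δ, N ≤ δ ∧ Good S j δ := by
  classical
  let bad : Finset (ZMod (md j)) := ((S j ×ˢ S j) ×ˢ range (2 * j + 3)).image fun t =>
    ((t.1.2 : ZMod (md j)) - t.1.1 + t.2 - (j + 1 : ℕ))
  have h1 : bad.card < Fintype.card (ZMod (md j)) := by
    rw [ZMod.card]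
    refine lt_of_le_of_lt Finset.card_image_le ?_
    rw [Finset.card_product, Finset.card_product, Finset.card_range]
    have h2 : (S j).card * (S j).card ≤ 4 ^ j := by
      calc (S j).card * (S j).card ≤ 2 ^ j * 2 ^ j := Nat.mul_le_mul (hS j) (hS j)
        _ = 4 ^ j := by rw [← mul_pow]; norm_num
    calc (S j).card * (S j).card * (2 * j + 3) ≤ 4 ^ j * (2 * j + 3) := Nat.mul_le_mul h2 le_rfl
      _ ≤ 4 ^ j * (2 * j + 5) := Nat.mul_le_mul le_rfl (by omega)
      _ < md j := by unfold md; omega
  obtain ⟨r, hr⟩ : ∃ r, r ∉ bad := by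
    by_contra hcon
    push Not at hcon
    have : bad = Finset.univ := Finset.eq_univ_iff_forall.2 hcon
    rw [this, Finset.card_univ] at h1
    exact lt_irrefl _ h1
  refine ⟨r.val + md j * N, ?_, ?_⟩
  · have := md_pos j
    nlinarith
  · intro s hs s' hs' f f' hf hf' hmod
    apply hr
    have h3 : ((s' + f : ℕ) : ZMod (md j)) = ((s + (r.val + md j * N) + f' : ℕ) : ZMod (md j)) :=
      (ZMod.natCast_eq_natCast_iff _ _ _).2 hmod
    push_cast at h3
    rw [ZMod.natCast_val, ZMod.cast_id', id, ZMod.natCast_self] at h3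
    refine Finset.mem_image.2 ⟨((s, s'), f + (j + 1) - f'), ?_, ?_⟩
    · simp only [Finset.mem_product, Finset.mem_range]
      exact ⟨⟨hs, hs'⟩, by omega⟩
    · simp only
      rw [Nat.cast_sub (by omega)]
      push_cast
      linear_combination h3

section

variable (S : ℕ → Finset ℕ) (hS : ∀ j, (S j).card ≤ 2 ^ j)

/-- the shifts -/
noncomputable def Dd : ℕ → ℕ
  | 0 => 0
  | 1 => Classical.choose (exists_good S hS 1 0)
  | (m + 2) => Classical.choose (exists_good S hS (m + 2) (Dd m))

theorem good_Dd (m : ℕ) : Good S (m + 1) (Dd S hS (m + 1)) := by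
  cases m with
  | zero => exact (Classical.choose_spec (exists_good S hS 1 0)).2
  | succ m => exact (Classical.choose_spec (exists_good S hS (m + 2) (Dd S hS m))).2

/-- the previous shift -/
noncomputable def Dp (m : ℕ) : ℕ := if m = 0 then 0 else Dd S hS (m - 1)

theorem Dp_le (m : ℕ) : Dp S hS m ≤ Dd S hS (m + 1) := by
  cases m with
  | zero => simp [Dp]
  | succ m =>
    simp only [Dp]
    rw [if_neg (by omega)]
    exact (Classical.choose_spec (exists_good S hS (m + 2) (Dd S hS m))).1

/-- the active coordinate -/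
def act (m : ℕ) : ℕ := 2 - m % 2

/-- the resting coordinate -/
def rest (m : ℕ) : ℕ := 1 + m % 2

theorem rest_ne (m : ℕ) : rest m ≠ act m := by unfold rest act; omega

theorem zero_ne (m : ℕ) : 0 ≠ act m := by unfold act; omega

theorem act_succ (m : ℕ) : act (m + 1) = rest m := by unfold rest act; omega

theorem rest_succ (m : ℕ) : rest (m + 1) = act m := by unfold rest act; omega

/-- the number of ones added in coordinate `i` before block `m` -/
noncomputable def aa (i m : ℕ) : ℕ :=
  ∑ t ∈ range m, if act t = i then Dd S hS (t + 1) - Dp S hS t else 0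

theorem aa_zero (m : ℕ) : aa S hS 0 m = 0 := by
  unfold aa
  apply Finset.sum_eq_zero
  intro t _
  rw [if_neg]
  exact (zero_ne t).symm

theorem aa_rest (m : ℕ) : aa S hS (rest m) m = Dd S hS m ∧ aa S hS (act m) m = Dp S hS m := by
  induction m with
  | zero => exact ⟨by simp [aa, Dd], by simp [aa, Dp]⟩
  | succ m ih =>
    have h1 : ∀ i, aa S hS i (m + 1) = aa S hS i m +
        if act m = i then Dd S hS (m + 1) - Dp S hS m else 0 := fun i =>
      Finset.sum_range_succ _ _
    constructor
    · rw [rest_succ, h1, if_pos rfl, ih.2]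
      have := Dp_le S hS m
      omega
    · rw [act_succ, h1, if_neg (rest_ne m).symm, ih.1]
      simp [Dp]

end

/-- the blocks -/
theorem exists_block {E : Set ℕ} (hE : E.Infinite) (g : ℕ → ℕ) (d : ℕ → ℕ) (m b : ℕ) :
    ∃ (b' x : ℕ) (A : Finset ℕ), b < b' ∧ g (m + 1) ≤ b' ∧ A.card = d m ∧ x ∉ A ∧ x ∈ E ∧ b ≤ x ∧
      x < b' ∧ ∀ l ∈ A, l ∈ E ∧ b ≤ l ∧ l < b' := by
  classical
  have h1 : (E \ ((range b : Finset ℕ) : Set ℕ)).Infinite := hE.sdiff (Finset.finite_toSet _)
  obtain ⟨T, hT, hTc⟩ := h1.exists_subset_card_eq (d m + 1)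
  obtain ⟨x, hx⟩ : T.Nonempty := Finset.card_pos.1 (by omega)
  have hT' : ∀ l ∈ T, l ∈ E ∧ b ≤ l := by
    intro l hl
    have := hT hl
    simp only [Finset.coe_range, Set.mem_sdiff, Set.mem_Iio, not_lt] at this
    exact this
  have hsup : ∀ l ∈ T, l < T.sup id + 1 := fun l hl =>
    Nat.lt_succ_of_le (Finset.le_sup (f := id) hl)
  refine ⟨max (T.sup id + 1) (g (m + 1)), x, T.erase x, ?_, le_max_right _ _, ?_, ?_,
    (hT' x hx).1, (hT' x hx).2, lt_of_lt_of_le (hsup x hx) (le_max_left _ _), ?_⟩
  · exact lt_of_le_of_lt (hT' x hx).2 (lt_of_lt_of_le (hsup x hx) (le_max_left _ _))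
  · rw [Finset.card_erase_of_mem hx, hTc]
    omega
  · simp
  · intro l hl
    have hl' := Finset.mem_of_mem_erase hl
    exact ⟨(hT' l hl').1, (hT' l hl').2, lt_of_lt_of_le (hsup l hl') (le_max_left _ _)⟩

theorem three (p : ℕ → Option Bool) (hp : {n | p n = none}.Infinite) (S : ℕ → Finset ℕ)
    (hS : ∀ j, (S j).card ≤ 2 ^ j) (g : ℕ → ℕ) :
    ∃ q : ℕ → ℕ → Option Bool, (∀ i, {n | q i n = none}.Infinite) ∧
      (∀ i n b, p n = some b → q i n = some b) ∧
      ∃ k0, ∀ k, k0 ≤ k → ∃ i < 3, ∃ j, g j ≤ k ∧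
        ∀ z : ℕ → Bool, ExtF z (q i) → cnt z k % md j ∉ S j := by
  classical
  let d : ℕ → ℕ := fun m => Dd S hS (m + 1) - Dp S hS m
  choose nb nx nA h1 h2 h3 h4 h5 h6 h7 h8 using exists_block hp g d
  let b : ℕ → ℕ := fun m => Nat.rec 0 (fun m t => nb m t) m
  have hb : ∀ m, b (m + 1) = nb m (b m) := fun m => rfl
  let x : ℕ → ℕ := fun m => nx m (b m)
  let A : ℕ → Finset ℕ := fun m => nA m (b m)
  have hblt : ∀ m, b m < b (m + 1) := fun m => h1 m (b m)
  have hbmono : Monotone b := monotone_nat_of_le_succ fun m => (hblt m).le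
  have hbs : StrictMono b := strictMono_nat_of_lt_succ hblt
  have hbg : ∀ m, g (m + 1) ≤ b (m + 1) := fun m => h2 m (b m)
  have hAc : ∀ m, (A m).card = d m := fun m => h3 m (b m)
  have hxp : ∀ m, p (x m) = none := fun m => h5 m (b m)
  have hxb : ∀ m, b m ≤ x m := fun m => h6 m (b m)
  have hxb' : ∀ m, x m < b (m + 1) := fun m => h7 m (b m)
  have hAp : ∀ m, ∀ l ∈ A m, p l = none := fun m l hl => (h8 m (b m) l hl).1
  have hAb : ∀ m, ∀ l ∈ A m, b m ≤ l := fun m l hl => (h8 m (b m) l hl).2.1
  have hAb' : ∀ m, ∀ l ∈ A m, l < b (m + 1) := fun m l hl => (h8 m (b m) l hl).2.2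
  have huniq : ∀ m m' l, b m ≤ l → l < b (m + 1) → b m' ≤ l → l < b (m' + 1) → m = m' := by
    intro m m' l ha hb' hc hd
    by_contra hne
    rcases lt_or_gt_of_ne hne with h | h
    · have := hbmono (show m + 1 ≤ m' from h)
      omega
    · have := hbmono (show m' + 1 ≤ m from h)
      omega
  have hxA : ∀ m m', x m ∉ A m' := by
    intro m m' h
    have := huniq m m' (x m) (hxb m) (hxb' m) (hAb m' _ h) (hAb' m' _ h)
    subst this
    exact h4 m (b m) h
  let q : ℕ → ℕ → Option Bool := fun i n =>
    if p n ≠ none then p n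
    else if ∃ m, n = x m then none
    else if ∃ m, act m = i ∧ n ∈ A m then some true
    else some false
  have hq1 : ∀ i n b, p n = some b → q i n = some b := by
    intro i n b hpn
    have : p n ≠ none := by rw [hpn]; simp
    simp only [q, if_pos this]
    exact hpn
  have hq2 : ∀ i m, q i (x m) = none := by
    intro i m
    have : ¬ (p (x m) ≠ none) := fun h => h (hxp m)
    have h' : ∃ m', x m = x m' := ⟨m, rfl⟩
    simp only [q, if_neg this, if_pos h']
  have hq3 : ∀ i m n, n ∈ A m → act m = i → q i n = some true := by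
    intro i m n hn hi
    have : ¬ (p n ≠ none) := fun h => h (hAp m n hn)
    have h' : ¬ ∃ m', n = x m' := by
      rintro ⟨m', rfl⟩
      exact hxA m' m hn
    have h'' : ∃ m, act m = i ∧ n ∈ A m := ⟨m, hi, hn⟩
    simp only [q, if_neg this, if_neg h', if_pos h'']
  have hq4 : ∀ i n, p n = none → (¬ ∃ m, n = x m) → (¬ ∃ m, act m = i ∧ n ∈ A m) →
      q i n = some false := by
    intro i n hn h' h''
    have : ¬ (p n ≠ none) := fun h => h hn
    simp only [q, if_neg this, if_neg h', if_neg h'']
  have hxinj : Function.Injective x := by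
    intro m m' h
    exact huniq m m' (x m) (hxb m) (hxb' m) (h ▸ hxb m') (h ▸ hxb' m')
  -- the count
  have hcount : ∀ i z, ExtF z (q i) → ∀ m k, b m ≤ k → k ≤ b (m + 1) → i ≠ act m →
      ∃ f, f ≤ m + 1 ∧ cnt z k =
        ((range k).filter fun l => p l = some true).card + aa S hS i m + f := by
    intro i z hz m k hmk hkm hi
    let B1 := (range k).filter fun l => p l = some true
    let B2 := ((range m).filter fun t => act t = i).biUnion A
    let B3 := (range k).filter fun l => (∃ t, l = x t) ∧ z l = true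
    have hB3 : B3.card ≤ m + 1 := by
      have : B3 ⊆ (range (m + 1)).image x := by
        intro l hl
        simp only [B3, Finset.mem_filter, Finset.mem_range] at hl
        obtain ⟨hlk, ⟨t, rfl⟩, -⟩ := hl
        refine Finset.mem_image.2 ⟨t, ?_, rfl⟩
        rw [Finset.mem_range]
        by_contra hcon
        have h9 := hbmono (show m + 1 ≤ t by omega)
        have h10 := hxb t
        omega
      refine (Finset.card_le_card this).trans (Finset.card_image_le.trans ?_)
      rw [Finset.card_range]
    have hB2 : B2.card = aa S hS i m := by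
      rw [Finset.card_biUnion]
      · rw [Finset.sum_filter]
        unfold aa
        apply Finset.sum_congr rfl
        intro t _
        rw [hAc]
      · intro t _ t' _ htt'
        rw [Function.onFun, Finset.disjoint_left]
        intro l hl hl'
        exact htt' (huniq t t' l (hAb t l hl) (hAb' t l hl) (hAb t' l hl') (hAb' t' l hl'))
    have hunion : (range k).filter (fun l => z l = true) = B1 ∪ B2 ∪ B3 := by
      ext l
      simp only [Finset.mem_union, Finset.mem_filter, Finset.mem_range, B1, B2, B3,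
        Finset.mem_biUnion]
      constructor
      · rintro ⟨hlk, hzl⟩
        by_cases hpl : p l = none
        · by_cases hx' : ∃ t, l = x t
          · exact Or.inr ⟨hlk, hx', hzl⟩
          · by_cases hA' : ∃ t, act t = i ∧ l ∈ A t
            · left; right
              obtain ⟨t, ht, hlt⟩ := hA'
              refine ⟨t, ⟨?_, ht⟩, hlt⟩
              by_contra hcon
              rcases Nat.lt_or_ge m t with h | h
              · have h9 := hbmono (show m + 1 ≤ t from h)
                have h10 := hAb t l hlt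
                omega
              · have : t = m := by omega
                subst this
                exact hi ht.symm
            · have := hz l false (hq4 i l hpl hx' hA')
              rw [this] at hzl
              exact absurd hzl (by simp)
        · left; left
          obtain ⟨c, hc⟩ := Option.ne_none_iff_exists'.1 hpl
          have := hz l c (hq1 i l c hc)
          rw [this] at hzl
          rw [hc, hzl]
          exact ⟨hlk, rfl⟩
      · rintro ((⟨hlk, hpl⟩ | ⟨t, ⟨htm, hti⟩, hlt⟩) | ⟨hlk, _, hzl⟩)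
        · exact ⟨hlk, hz l true (hq1 i l true hpl)⟩
        · refine ⟨?_, hz l true (hq3 i t l hlt hti)⟩
          have h9 := hAb' t l hlt
          have h10 := hbmono (show t + 1 ≤ m from htm)
          omega
        · exact ⟨hlk, hzl⟩
    refine ⟨B3.card, hB3, ?_⟩
    unfold cnt
    rw [hunion, Finset.card_union_of_disjoint, Finset.card_union_of_disjoint, hB2]
    · rw [Finset.disjoint_left]
      intro l hl hl'
      simp only [B1, Finset.mem_filter] at hl
      simp only [B2, Finset.mem_biUnion] at hl'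
      obtain ⟨t, _, hlt⟩ := hl'
      rw [hAp t l hlt] at hl
      exact absurd hl.2 (by simp)
    · rw [Finset.disjoint_left]
      intro l hl hl'
      simp only [B3, Finset.mem_filter] at hl'
      obtain ⟨-, ⟨t, rfl⟩, -⟩ := hl'
      rcases Finset.mem_union.1 hl with hl | hl
      · simp only [B1, Finset.mem_filter] at hl
        rw [hxp] at hl
        exact absurd hl.2 (by simp)
      · simp only [B2, Finset.mem_biUnion] at hl
        obtain ⟨t', _, hlt⟩ := hl
        exact hxA t t' hlt
  refine ⟨q, ?_, hq1, b 1, ?_⟩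
  · intro i
    exact Set.infinite_of_injective_forall_mem hxinj fun m => hq2 i m
  · intro k hk
    obtain ⟨m, hm1, hm2⟩ : ∃ m, b (m + 1) ≤ k ∧ k < b (m + 2) := by
      have hex : ∃ n, k < b n := ⟨k + 1, by have := hbs.id_le (k + 1); simp only [id] at this; omega⟩
      have h9 := Nat.find_spec hex
      have h10 : ¬ k < b (Nat.find hex - 1) → True := fun _ => trivial
      have h11 : 2 ≤ Nat.find hex := by
        by_contra hcon
        have h12 : Nat.find hex ≤ 1 := by omega
        have h13 := hbmono h12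
        omega
      have h14 : ¬ k < b (Nat.find hex - 1) := Nat.find_min hex (by omega)
      refine ⟨Nat.find hex - 2, ?_, ?_⟩
      · rw [show Nat.find hex - 2 + 1 = Nat.find hex - 1 by omega]
        omega
      · rw [show Nat.find hex - 2 + 2 = Nat.find hex by omega]
        exact h9
    have hkm : k ≤ b (m + 1 + 1) := hm2.le
    by_contra hcon
    push Not at hcon
    obtain ⟨z0, hz0, hS0⟩ := hcon 0 (by norm_num) (m + 1) ((hbg m).trans hm1)
    obtain ⟨z1, hz1, hS1⟩ := hcon (rest (m + 1)) (by unfold rest; omega) (m + 1)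
      ((hbg m).trans hm1)
    obtain ⟨f, hf, hc0⟩ := hcount 0 z0 hz0 (m + 1) k hm1 hkm (zero_ne _)
    obtain ⟨f', hf', hc1⟩ := hcount _ z1 hz1 (m + 1) k hm1 hkm (rest_ne _)
    rw [aa_zero] at hc0
    rw [(aa_rest S hS (m + 1)).1] at hc1
    refine good_Dd S hS m _ hS0 _ hS1 f f' hf hf' ?_
    rw [hc0, hc1]
    set base := ((range k).filter fun l => p l = some true).card
    have e1 : (base + Dd S hS (m + 1) + f') % md (m + 1) + f ≡
        base + Dd S hS (m + 1) + f' + f [MOD md (m + 1)] :=
      (Nat.mod_modEq _ _).add_right _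
    have e2 : (base + 0 + f) % md (m + 1) + Dd S hS (m + 1) + f' ≡
        base + 0 + f + Dd S hS (m + 1) + f' [MOD md (m + 1)] :=
      ((Nat.mod_modEq _ _).add_right _).add_right _
    refine e1.trans (Nat.ModEq.symm (e2.trans ?_))
    rw [show base + 0 + f + Dd S hS (m + 1) + f' = base + Dd S hS (m + 1) + f' + f by omega]

end Pool.Agent.H686R2.Sil
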