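import Mathlib

/-!
# The forcing language for names of reals, of sequences of reals, and of sets of reals

A sentence of the forcing language of a preordered set `P` of conditions is represented by the
set of the conditions which force it. Negation, conjunction and universal quantification are the
primitive connectives, with their usual forcing clauses; the other connectives are defined from
them classically.
-/

set_option autoImplicit false

namespace Pool.Agent.H686R2.Sil

open Cardinal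

/-- The well-ordered set of the countable ordinals (order type `ω₁`). -/
abbrev Om : Type := (ℵ₁ : Cardinal.{0}).ord.ToType

section

universe v

variable {P : Type} [Preorder P]

/-- `p` forces `not φ` iff no stronger condition forces `φ`. -/
def fnot (φ : Set P) : Set P := {p | ∀ q ≤ p, q ∉ φ}

/-- `p` forces `φ and ψ` iff it forces both. -/
def fand (φ ψ : Set P) : Set P := {p | p ∈ φ ∧ p ∈ ψ}

/-- `p` forces `for all i, φ i` iff it forces every `φ i`. -/
def fall {ι : Sort v} (φ : ι → Set P) : Set P := {p | ∀ i, p ∈ φ i}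

/-- `φ implies ψ` is `not (φ and not ψ)`. -/
def fimp (φ ψ : Set P) : Set P := fnot (fand φ (fnot ψ))

/-- `φ if and only if ψ`. -/
def fiff (φ ψ : Set P) : Set P := fand (fimp φ ψ) (fimp ψ φ)

/-- `φ or ψ` is `not (not φ and not ψ)`. -/
def for2 (φ ψ : Set P) : Set P := fnot (fand (fnot φ) (fnot ψ))

/-- `there is i with φ i` is `not for all i, not φ i`. -/
def fex {ι : Sort v} (φ : ι → Set P) : Set P := fnot (fall fun i => fnot (φ i))

/-- An absolute statement about ground model objects. -/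
def fground (h : Prop) : Set P := {_p | h}

/-- `p` forces that the generic filter meets the set `N` of conditions:
the set of `r` lying below some member of `N` is dense below `p`. -/
def meets (N : Set P) : Set P := {p | ∀ q ≤ p, ∃ r ≤ q, ∃ s ∈ N, r ≤ s}

/-- The relation named by `R` is a function from `X` to `Y`. -/
def IsFun {X Y : Type} (R : X → Y → Set P) : Set P :=
  fand (fall fun x => fex fun y => meets (R x y))
    (fall fun x => fall fun y => fall fun y' =>
      fimp (fand (meets (R x y)) (meets (R x y'))) (fground (y = y')))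

/-- The relation named by `R` is onto `Y`. -/
def IsOnto {X Y : Type} (R : X → Y → Set P) : Set P :=
  fall fun y => fex fun x => meets (R x y)

/-- The subsets of `ℕ` named by `x` and `y` are equal. -/
def feqv (x y : ℕ → Set P) : Set P := fall fun n => fiff (meets (x n)) (meets (y n))

/-- A name for a set of subsets of `ℕ` is a set `W` of pairs (name of a subset of `ℕ`, condition).
`p` forces that the set named by `x` is a member of the set named by `W` iff the set of the
conditions `r` for which there is a pair `(z, s)` in `W` with `r ≤ s` and `r` forces `z = x` is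
dense below `p`. -/
def fmem (x : ℕ → Set P) (W : Set ((ℕ → Set P) × P)) : Set P :=
  {p | ∀ q ≤ p, ∃ r ≤ q, ∃ z ∈ W, r ≤ z.2 ∧ r ∈ feqv z.1 x}

end

/-! ### General facts -/

section

universe v

variable {P : Type} [Preorder P]

theorem mem_fex {ι : Sort v} {φ : ι → Set P} {p : P} :
    p ∈ fex φ ↔ ∀ q ≤ p, ∃ r ≤ q, ∃ i, r ∈ φ i := by
  simp only [fex, fnot, fall, Set.mem_ofPred_eq, not_forall, not_not]
  constructor
  · intro h q hq
    obtain ⟨i, r, hr, h'⟩ := h q hq
    exact ⟨r, hr, i, h'⟩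
  · intro h q hq
    obtain ⟨r, hr, i, h'⟩ := h q hq
    exact ⟨i, r, hr, h'⟩

theorem mem_fimp {φ ψ : Set P} {p : P} :
    p ∈ fimp φ ψ ↔ ∀ q ≤ p, q ∈ φ → ∃ r ≤ q, r ∈ ψ := by
  simp only [fimp, fnot, fand, Set.mem_ofPred_eq, not_and, not_forall, not_not]
  constructor
  · intro h q hq h'
    obtain ⟨r, hr, h''⟩ := h q hq h'
    exact ⟨r, hr, h''⟩
  · intro h q hq h'
    obtain ⟨r, hr, h''⟩ := h q hq h'
    exact ⟨r, hr, h''⟩

theorem mem_for2 {φ ψ : Set P} {p : P} :
    p ∈ for2 φ ψ ↔ ∀ q ≤ p, ∃ r ≤ q, r ∈ φ ∨ r ∈ ψ := by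
  simp only [for2, fnot, fand, Set.mem_ofPred_eq]
  constructor
  · intro h q hq
    by_contra hcon
    push Not at hcon
    exact h q hq ⟨fun r hr => (hcon r hr).1, fun r hr => (hcon r hr).2⟩
  · intro h q hq h'
    obtain ⟨r, hr, h''⟩ := h q hq
    rcases h'' with h'' | h''
    · exact h'.1 r hr h''
    · exact h'.2 r hr h''

theorem mem_fground {h : Prop} {p : P} : p ∈ (fground h : Set P) ↔ h := Iff.rfl

/-- closed downwards and regular -/
def RO (φ : Set P) : Prop :=
  (∀ p ∈ φ, ∀ q ≤ p, q ∈ φ) ∧ ∀ p, (∀ q ≤ p, ∃ r ≤ q, r ∈ φ) → p ∈ φ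

theorem RO.down {φ : Set P} (h : RO φ) {p q : P} (hp : p ∈ φ) (hq : q ≤ p) : q ∈ φ :=
  h.1 p hp q hq

theorem RO.reg {φ : Set P} (h : RO φ) {p : P} (hp : ∀ q ≤ p, ∃ r ≤ q, r ∈ φ) : p ∈ φ :=
  h.2 p hp

theorem ro_fnot' {φ : Set P} (hφ : ∀ p ∈ φ, ∀ q ≤ p, q ∈ φ) : RO (fnot φ) :=
  ⟨fun _ hp _ hq r hr => hp r (hr.trans hq), fun p hp q hq hqφ => by
    obtain ⟨r, hr, h⟩ := hp q hq
    exact h r le_rfl (hφ q hqφ r hr)⟩

theorem ro_fnot {φ : Set P} (hφ : RO φ) : RO (fnot φ) := ro_fnot' hφ.1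

theorem ro_fand {φ ψ : Set P} (h : RO φ) (h' : RO ψ) : RO (fand φ ψ) :=
  ⟨fun _ hp _ hq => ⟨h.down hp.1 hq, h'.down hp.2 hq⟩, fun p hp =>
    ⟨h.reg fun q hq => (hp q hq).imp fun _ hr => ⟨hr.1, hr.2.1⟩,
      h'.reg fun q hq => (hp q hq).imp fun _ hr => ⟨hr.1, hr.2.2⟩⟩⟩

theorem ro_fall {ι : Sort v} {φ : ι → Set P} (h : ∀ i, RO (φ i)) : RO (fall φ) :=
  ⟨fun _ hp _ hq i => (h i).down (hp i) hq, fun p hp i =>
    (h i).reg fun q hq => (hp q hq).imp fun _ hr => ⟨hr.1, hr.2 i⟩⟩

theorem down_fnot (φ : Set P) : ∀ p ∈ fnot φ, ∀ q ≤ p, q ∈ fnot φ :=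
  fun _ hp _ hq r hr => hp r (hr.trans hq)

theorem ro_fimp {φ ψ : Set P} (h : RO φ) : RO (fimp φ ψ) :=
  ro_fnot' fun _ hp _ hq => ⟨h.down hp.1 hq, down_fnot _ _ hp.2 _ hq⟩

theorem ro_fiff {φ ψ : Set P} (h : RO φ) (h' : RO ψ) : RO (fiff φ ψ) :=
  ro_fand (ro_fimp h) (ro_fimp h')

theorem ro_for2 (φ ψ : Set P) : RO (for2 φ ψ) :=
  ro_fnot' fun _ hp _ hq => ⟨down_fnot _ _ hp.1 _ hq, down_fnot _ _ hp.2 _ hq⟩

theorem ro_fex {ι : Sort v} (φ : ι → Set P) : RO (fex φ) :=
  ro_fnot' fun _ hp _ hq i => down_fnot _ _ (hp i) _ hq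

theorem ro_fground (h : Prop) [Nonempty P] : RO (fground h : Set P) :=
  ⟨fun _ hp _ _ => hp, fun p hp => by
    obtain ⟨r, _, h⟩ := hp p le_rfl
    exact h⟩

theorem ro_meets (N : Set P) : RO (meets N) :=
  ⟨fun _ hp _ hq r hr => hp r (hr.trans hq), fun p hp q hq => by
    obtain ⟨r, hr, h⟩ := hp q hq
    obtain ⟨s, hs, t, ht⟩ := h r le_rfl
    exact ⟨s, hs.trans hr, t, ht⟩⟩

theorem meets_ro {N : Set P} (h : RO N) : meets N = N := by
  ext p
  constructor
  · intro hp
    exact h.reg fun q hq => by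
      obtain ⟨r, hr, s, hs, hrs⟩ := hp q hq
      exact ⟨r, hr, h.down hs hrs⟩
  · intro hp q hq
    exact ⟨q, le_rfl, p, hp, hq⟩

theorem mem_meets_of_mem {N : Set P} {p : P} (h : p ∈ N) : p ∈ meets N :=
  fun q hq => ⟨q, le_rfl, p, h, hq⟩

theorem mem_fimp_ro {φ ψ : Set P} {p : P} (h : RO φ) (h' : RO ψ) :
    p ∈ fimp φ ψ ↔ ∀ q ≤ p, q ∈ φ → q ∈ ψ := by
  rw [mem_fimp]
  constructor
  · intro hp q hq hφ
    exact h'.reg fun r hr => hp r (hr.trans hq) (h.down hφ hr)
  · intro hp q hq hφ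
    exact ⟨q, le_rfl, hp q hq hφ⟩

theorem mem_fiff_ro {φ ψ : Set P} {p : P} (h : RO φ) (h' : RO ψ) :
    p ∈ fiff φ ψ ↔ ∀ q ≤ p, (q ∈ φ ↔ q ∈ ψ) := by
  constructor
  · intro hp q hq
    exact ⟨(mem_fimp_ro h h').1 hp.1 q hq, (mem_fimp_ro h' h).1 hp.2 q hq⟩
  · intro hp
    exact ⟨(mem_fimp_ro h h').2 fun q hq => (hp q hq).1,
      (mem_fimp_ro h' h).2 fun q hq => (hp q hq).2⟩

theorem ro_feqv (x y : ℕ → Set P) : RO (feqv x y) :=
  ro_fall fun _ => ro_fiff (ro_meets _) (ro_meets _)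

theorem mem_feqv {x y : ℕ → Set P} {p : P} :
    p ∈ feqv x y ↔ ∀ n, ∀ q ≤ p, (q ∈ meets (x n) ↔ q ∈ meets (y n)) := by
  constructor
  · intro h n q hq
    exact (mem_fiff_ro (ro_meets _) (ro_meets _)).1 (h n) q hq
  · intro h n
    exact (mem_fiff_ro (ro_meets _) (ro_meets _)).2 (h n)

theorem ro_fmem (x : ℕ → Set P) (W : Set ((ℕ → Set P) × P)) : RO (fmem x W) :=
  ⟨fun _ hp _ hq r hr => hp r (hr.trans hq), fun p hp q hq => by
    obtain ⟨r, hr, h⟩ := hp q hq
    obtain ⟨s, hs, t, ht⟩ := h r le_rfl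
    exact ⟨s, hs.trans hr, t, ht⟩⟩

theorem fmem_congr {x y : ℕ → Set P} {W : Set ((ℕ → Set P) × P)} {p : P}
    (h : p ∈ fmem x W) (hxy : p ∈ feqv x y) : p ∈ fmem y W := by
  intro q hq
  obtain ⟨r, hr, z, hz, h1, h2⟩ := h q hq
  refine ⟨r, hr, z, hz, h1, ?_⟩
  rw [mem_feqv] at h2 hxy ⊢
  intro n s hs
  rw [h2 n s hs]
  exact hxy n s (hs.trans (hr.trans hq))

end

/-! ### The sentences -/

section

variable (P : Type) [Preorder P]

/-- In the extension there is no function from the natural numbers onto the ground model `ω₁`;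
so the ground model `ω₁` is still the first uncountable cardinal. -/
def OmegaOnePreserved : Set P :=
  fnot (fex fun R : ℕ → Om → Set P => fand (IsFun R) (IsOnto R))

/-- The continuum hypothesis holds in the extension: some family of subsets of `ℕ` indexed by
`ω₁` contains every subset of `ℕ`. -/
def ForcesCH : Set P :=
  fex fun E : Om → ℕ → Set P => fall fun x : ℕ → Set P => fex fun a : Om =>
    fall fun n : ℕ => fiff (meets (x n)) (meets (E a n))

/-- `DomSmall` holds in the extension. -/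
def ForcesDomSmall : Set P :=
  fex fun D : Om → ℕ → ℕ → Set P =>
    fand (fall fun a : Om => IsFun (D a))
      (fall fun f : ℕ → ℕ → Set P => fimp (IsFun f) (fex fun a : Om => fall fun n : ℕ =>
        fex fun m : ℕ => fex fun m' : ℕ =>
          fand (fand (meets (f n m)) (meets (D a n m'))) (fground (m ≤ m'))))

variable {P}

/-- The set of subsets of `ℕ` named by `W` is a P-point. -/
def IsPPointName (W : Set ((ℕ → Set P) × P)) : Set P :=
  fand (fall fun x : ℕ → Set P => fall fun y : ℕ → Set P =>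
    fimp (fall fun n => fiff (meets (y n)) (fnot (meets (x n)))) (for2 (fmem x W) (fmem y W))) <|
  fand (fall fun x : ℕ → Set P => fall fun y : ℕ → Set P => fall fun z : ℕ → Set P =>
    fimp (fand (fand (fmem x W) (fmem y W))
      (fall fun n => fiff (meets (z n)) (fand (meets (x n)) (meets (y n))))) (fmem z W)) <|
  fand (fall fun x : ℕ → Set P => fall fun y : ℕ → Set P =>
    fimp (fand (fmem x W) (fall fun n => fimp (meets (x n)) (meets (y n)))) (fmem y W)) <|
  fand (fall fun x : ℕ → Set P => fimp (fmem x W)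
    (fall fun N : ℕ => fex fun n : ℕ => fand (fground (N ≤ n)) (meets (x n)))) <|
  fall fun x : ℕ → ℕ → Set P => fimp (fall fun j => fmem (x j) W)
    (fex fun y : ℕ → Set P => fand (fmem y W) (fall fun j : ℕ => fex fun N : ℕ =>
      fall fun n : ℕ => fall fun _ : N ≤ n => fimp (meets (y n)) (meets (x j n))))

variable (P)

/-- `NoPPoint` holds in the extension. -/
def ForcesNoPPoint : Set P :=
  fnot (fex fun W : Set ((ℕ → Set P) × P) => IsPPointName W)

end

end Pool.Agent.H686R2.Sil
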