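import Pool.Agent.H686R2.Sil.Clos
import Pool.Agent.H686R2.Sil.Comb

/-!
# The countable support product of Silver forcing adds no P-points
-/

set_option autoImplicit false

namespace Pool.Agent.H686R2.Sil

open Set Cardinal

variable {I : Type}

/-- `p` decides the `α`-th Silver real below `k` -/
def Tot (p : Cond I) (α : I) (k : ℕ) : Prop := ∀ l < k, p.1 α l ≠ none

/-- the number of ones below `k` -/
def val (p : Cond I) (α : I) (k : ℕ) : ℕ :=
  ((Finset.range k).filter fun l => p.1 α l = some true).card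

theorem Tot.mono {p q : Cond I} {α : I} {k : ℕ} (h : Tot p α k) (hq : q ≤ p) : Tot q α k := by
  intro l hl h'
  exact h l hl (none_of_le hq h')

theorem val_eq {p q : Cond I} {α : I} {k : ℕ} (h : Tot p α k) (hq : q ≤ p) :
    val q α k = val p α k := by
  unfold val
  congr 1
  apply Finset.filter_congr
  intro l hl
  obtain ⟨b, hb⟩ := Option.ne_none_iff_exists'.1 (h l (Finset.mem_range.1 hl))
  rw [hb, hq α l b hb]

theorem exists_tot (p : Cond I) (α : I) (k : ℕ) : ∃ q ≤ p, Tot q α k := by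
  classical
  let E : Finset (I × ℕ) := ({α} : Finset I) ×ˢ Finset.range k
  let q : Cond I := chg p E fun e => some ((p.1 e.1 e.2).getD false)
  refine ⟨q, ?_, ?_⟩
  · intro i n b hb
    by_cases h : (i, n) ∈ E
    · have h1 := chg_in (p := p) (σ := fun e => some ((p.1 e.1 e.2).getD false)) h
      simp only at h1
      rw [show q.1 i n = _ from h1, hb, Option.getD_some]
    · have h1 := chg_out (p := p) (σ := fun e => some ((p.1 e.1 e.2).getD false)) h
      simp only at h1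
      rw [show q.1 i n = _ from h1, hb]
  · intro l hl
    have h : (α, l) ∈ E := by simp [E, hl]
    have h1 := chg_in (p := p) (σ := fun e => some ((p.1 e.1 e.2).getD false)) h
    simp only at h1
    rw [show q.1 α l = _ from h1]
    simp

/-- the name of the set of the `k` such that the number of ones below `k` is `i` modulo `n` -/
def Dn (α : I) (n i : ℕ) : ℕ → Set (Cond I) := fun k => {p | Tot p α k ∧ val p α k % n = i}

theorem mod_of_meets {q : Cond I} {α : I} {n i k : ℕ} (h : q ∈ meets (Dn α n i k))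
    (ht : Tot q α k) : val q α k % n = i := by
  obtain ⟨r, hr, s, ⟨hs1, hs2⟩, hrs⟩ := h q le_rfl
  rw [← val_eq ht hr, val_eq hs1 hrs, hs2]

theorem meets_of_mod {q : Cond I} {α : I} {n i k : ℕ} (ht : Tot q α k)
    (h : val q α k % n = i) : q ∈ meets (Dn α n i k) :=
  mem_meets_of_mem ⟨ht, h⟩

variable {W : Set ((ℕ → Set (Cond I)) × Cond I)}

/-- the name of a sequence of members of the ultrafilter -/
def Xn (W : Set ((ℕ → Set (Cond I)) × Cond I)) (α : I) (j : ℕ) : ℕ → Set (Cond I) := fun k =>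
  {p | Tot p α k ∧ p ∈ fmem (Dn α (md j) (val p α k % md j)) W}

theorem xn_mem {α : I} {j i : ℕ} {r : Cond I} (hP : PP W r)
    (hr : r ∈ fmem (Dn α (md j) i) W) : r ∈ fmem (Xn W α j) W := by
  refine hP.sup r le_rfl (Dn α (md j) i) _ hr fun k s hs hs' t ht => ?_
  obtain ⟨u, hu, hu'⟩ := exists_tot t α k
  have h1 := mod_of_meets ((ro_meets _).down hs' (hu.trans ht)) hu'
  refine ⟨u, hu, u, ⟨hu', ?_⟩, le_rfl⟩
  rw [h1]
  exact (ro_fmem _ _).down hr (hu.trans (ht.trans hs))

theorem eq_of_mem {α : I} {n a b : ℕ} {r : Cond I} (hP : PP W r)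
    (h1 : r ∈ fmem (Dn α n a) W) (h2 : r ∈ fmem (Dn α n b) W) : a = b := by
  obtain ⟨s, hs, k, _, hk1, hk2⟩ := hP.inf2 h1 h2 0
  obtain ⟨t, ht, ht'⟩ := exists_tot s α k
  rw [← mod_of_meets ((ro_meets _).down hk1 ht) ht', mod_of_meets ((ro_meets _).down hk2 ht) ht']

theorem exists_class {α : I} (j : ℕ) {r : Cond I} (hP : PP W r) :
    ∃ s ≤ r, ∃ i, i < md j ∧ s ∈ fmem (Dn α (md j) i) W := by
  obtain ⟨s, hs, i, hi, h⟩ := hP.part (md j) 0 (fun i => Dn α (md j) i) (fun k _ t ht => by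
    obtain ⟨u, hu, hu'⟩ := exists_tot t α k
    exact ⟨u, hu, val u α k % md j, Nat.mod_lt _ (md_pos j), meets_of_mod hu' rfl⟩)
  exact ⟨s, hs, i, hi, h⟩

theorem xn_mem' {α : I} (j : ℕ) {r : Cond I} (hP : PP W r) : r ∈ fmem (Xn W α j) W := by
  refine (ro_fmem _ _).reg fun s hs => ?_
  obtain ⟨t, ht, i, _, h⟩ := exists_class (α := α) j (hP.mono hs)
  exact ⟨t, ht, xn_mem (hP.mono (ht.trans hs)) h⟩

/-- replace the `α`-th coordinate and use `t` on `Δ`, `p` outside `Δ` -/
theorem exists_glue [Nonempty I] {Δ : Set I} {t p : Cond I} {α : I} (hα : α ∉ Δ) (q : ℕ → Option Bool)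
    (hq : {n | q n = none}.Infinite) (htp : t ≤ p) (hqp : ∀ n b, p.1 α n = some b → q n = some b) :
    ∃ s : Cond I, s ≤ p ∧ s ≤ res t Δ ∧ s.1 α = q := by
  classical
  refine ⟨⟨fun i => if i ∈ Δ then t.1 i else if i = α then q else p.1 i, ?_, ?_⟩, ?_, ?_, ?_⟩
  · intro i
    by_cases h : i ∈ Δ
    · simp only [if_pos h]
      exact t.2.1 i
    · by_cases h' : i = α
      · simp only [if_neg h, if_pos h']
        exact hq
      · simp only [if_neg h, if_neg h']
        exact p.2.1 i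
  · refine ((t.2.2.union p.2.2).union (countable_singleton α)).mono ?_
    rintro i ⟨n, hn⟩
    by_cases h : i ∈ Δ
    · simp only [if_pos h] at hn
      exact Or.inl (Or.inl ⟨n, hn⟩)
    · by_cases h' : i = α
      · exact Or.inr h'
      · simp only [if_neg h, if_neg h'] at hn
        exact Or.inl (Or.inr ⟨n, hn⟩)
  · intro i n b hb
    by_cases h : i ∈ Δ
    · simp only [if_pos h]
      exact htp i n b hb
    · by_cases h' : i = α
      · simp only [if_neg h, if_pos h']
        subst h'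
        exact hqp n b hb
      · simp only [if_neg h, if_neg h']
        exact hb
  · intro i n b hb
    by_cases h : i ∈ Δ
    · simp only [if_pos h]
      rw [res_in h] at hb
      exact hb
    · rw [res_out h] at hb
      exact absurd hb (by simp)
  · simp only [if_neg hα, if_true]

/-- a name of a P-point gives a contradiction -/
theorem no_pp [Nonempty I] (hI : 𝔠 < #I) {p0 : Cond I} (hP : PP W p0) : False := by
  classical
  -- the coordinate
  obtain ⟨α, hα⟩ : ∃ α, ¬ Dl W p0 α := by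
    by_contra hcon
    push Not at hcon
    have h1 : #I ≤ #{i // Dl W p0 i} :=
      Cardinal.mk_le_of_injective (f := fun i => (⟨i, hcon i⟩ : {i // Dl W p0 i}))
        fun a b hab => congrArg Subtype.val hab
    exact absurd (h1.trans (card_Dl W p0)) (not_le.2 hI)
  -- the pseudointersection
  obtain ⟨p1, hp1, y, hy, hyx⟩ := hP.pp p0 le_rfl (Xn W α) fun j => xn_mem' j hP
  have hP1 := hP.mono hp1
  -- the Sacks property
  obtain ⟨p2, hp2, K, hK1, hK2⟩ := sacks (I := I) (A := ℕ × ℕ)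
    (Ej := fun j a => {r | r ≤ p1 ∧ r ∈ fmem (Dn α (md j) a.1) W ∧
      ∀ n, a.2 ≤ n → ∀ u ≤ r, u ∈ meets (y n) → u ∈ meets (Xn W α j n)})
    (fun j a r hr s hs => ⟨hs.trans hr.1, (ro_fmem _ _).down hr.2.1 hs,
      fun n hn u hu => hr.2.2 n hn u (hu.trans hs)⟩)
    (p := p1) (fun j q hq => by
      obtain ⟨r, hr, i, _, hi⟩ := exists_class (α := α) j (hP1.mono hq)
      obtain ⟨t, ht, N, hN⟩ := hyx j r (hr.trans hq)
      exact ⟨t, ht.trans hr, (i, N), ht.trans (hr.trans hq), (ro_fmem _ _).down hi ht, hN⟩)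
  have hP2 := hP1.mono hp2
  let S : ℕ → Finset ℕ := fun j => (K j).image Prod.fst
  let g : ℕ → ℕ := fun j => (K j).sup Prod.snd
  have hS : ∀ j, (S j).card ≤ 2 ^ j := fun j => Finset.card_image_le.trans (hK1 j)
  obtain ⟨q, hq1, hq2, k0, hq3⟩ := three (p2.1 α) (p2.2.1 α) S hS g
  -- the good sets
  let G : ℕ → ℕ → Prop := fun i k => ∃ j, g j ≤ k ∧
    ∀ z : ℕ → Bool, ExtF z (q i) → cnt z k % md j ∉ S j
  obtain ⟨t, ht, i, hi, htG⟩ := hP2.part 3 k0 (fun i => ck (G i)) (fun k hk r _ => by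
    obtain ⟨i, hi, hj⟩ := hq3 k hk
    exact ⟨r, le_rfl, i, hi, mem_meets_ck.2 hj⟩)
  have hres := restrict hP (ht.trans (hp2.trans hp1)) htG
  obtain ⟨s, hs1, hs2, hs3⟩ := exists_glue (Δ := {i | Dl W p0 i}) hα (q i) (hq1 i) ht (hq2 i)
  have hsG : s ∈ fmem (ck (G i)) W := (ro_fmem _ _).down hres hs2
  have hsy : s ∈ fmem y W := (ro_fmem _ _).down hy (hs1.trans hp2)
  obtain ⟨u, hu, k, _, hk1, hk2⟩ := (hP2.mono hs1).inf2 hsy hsG 0
  obtain ⟨j, hjk, hz⟩ := mem_meets_ck.1 hk2
  obtain ⟨u1, hu1, a, ha, -, ha1, ha2⟩ := hK2 j u (hu.trans hs1)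
  have hmx : u1 ∈ meets (Xn W α j k) :=
    ha2 k ((Finset.le_sup (f := Prod.snd) ha).trans hjk) u1 le_rfl ((ro_meets _).down hk1 hu1)
  obtain ⟨u2, hu2, w, ⟨hw1, hw2⟩, hu2w⟩ := hmx u1 le_rfl
  have hPu2 : PP W u2 := hP2.mono (hu2.trans (hu1.trans (hu.trans hs1)))
  have heq := eq_of_mem hPu2 ((ro_fmem _ _).down ha1 hu2) ((ro_fmem _ _).down hw2 hu2w)
  -- a total extension
  let z : ℕ → Bool := fun l => (u2.1 α l).getD false
  have hz1 : ExtF z (q i) := by
    intro n b hb
    have h1 : u2.1 α n = some b := by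
      apply (hu2.trans (hu1.trans hu)) α n b
      rw [hs3]
      exact hb
    simp only [z, h1, Option.getD_some]
  have hcnt : cnt z k = val w α k := by
    rw [← val_eq hw1 hu2w]
    unfold cnt val
    congr 1
    apply Finset.filter_congr
    intro l hl
    obtain ⟨b, hb⟩ := Option.ne_none_iff_exists'.1
      ((hw1.mono hu2w) l (Finset.mem_range.1 hl))
    simp only [z, hb, Option.getD_some, Option.some.injEq]
  refine hz z hz1 ?_
  rw [hcnt, ← heq]
  exact Finset.mem_image_of_mem _ ha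

theorem forcesNoPPoint [Nonempty I] (hI : 𝔠 < #I) (p : Cond I) : p ∈ ForcesNoPPoint (Cond I) := by
  intro q _ hq
  obtain ⟨r, _, W, hW⟩ := mem_fex.1 hq q le_rfl
  exact no_pp hI (pp_of_mem hW)

theorem omegaOnePreserved [Nonempty I] (p : Cond I) : p ∈ OmegaOnePreserved (Cond I) := by
  classical
  intro q _ hq
  obtain ⟨r, _, R, hR1, hR2⟩ := mem_fex.1 hq q le_rfl
  obtain ⟨s, hs, K, -, hK⟩ := sacks (I := I) (A := Om) (Ej := fun n a => meets (R n a))
    (fun j a p hp q hq => (ro_meets _).down hp hq) (p := r) (fun n q hq => by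
      obtain ⟨t, ht, a, ha⟩ := mem_fex.1 (hR1.1 n) q hq
      exact ⟨t, ht, a, ha⟩)
  have hc : (⋃ n, ((K n : Finset Om) : Set Om)).Countable :=
    countable_iUnion fun n => Finset.countable_toSet _
  obtain ⟨y, hy⟩ : ∃ y, y ∉ ⋃ n, ((K n : Finset Om) : Set Om) := by
    by_contra hcon
    push Not at hcon
    have h1 : (univ : Set Om).Countable := hc.mono fun x _ => hcon x
    have h2 : #Om ≤ ℵ₀ := by
      rw [← Cardinal.mk_univ]
      exact Cardinal.le_aleph0_iff_set_countable.2 h1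
    rw [Cardinal.mk_toType, Cardinal.card_ord] at h2
    exact absurd h2 (not_le.2 Cardinal.aleph0_lt_aleph_one)
  obtain ⟨t, ht, n, hn⟩ := mem_fex.1 (hR2 y) s hs
  obtain ⟨t', ht', a, ha, hta⟩ := hK n t ht
  have h3 := mem_fimp.1 (hR1.2 n a y) t' (ht'.trans (ht.trans hs)) ⟨hta, (ro_meets _).down hn ht'⟩
  obtain ⟨_, _, h4⟩ := h3
  have h5 : a = y := h4
  exact hy (mem_iUnion.2 ⟨n, by rw [← h5]; exact ha⟩)

theorem forcesDomSmall [Nonempty I] (hCH : #(ℕ → ℕ) ≤ #Om) (p : Cond I) :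
    p ∈ ForcesDomSmall (Cond I) := by
  classical
  obtain ⟨e⟩ := hCH
  have hsurj : ∃ D : Om → ℕ → ℕ, Function.Surjective D :=
    ⟨Function.invFun e, Function.invFun_surjective e.injective⟩
  obtain ⟨D, hD⟩ := hsurj
  refine mem_fex.2 fun q _ => ⟨q, le_rfl, fun a n m => {_p | m = D a n}, ?_, ?_⟩
  · intro a
    constructor
    · intro n
      exact mem_fex.2 fun r _ => ⟨r, le_rfl, D a n, mem_meets_of_mem rfl⟩
    · intro n m m'
      refine mem_fimp.2 fun r _ hr => ⟨r, le_rfl, ?_⟩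
      obtain ⟨_, _, _, h1, _⟩ := hr.1 r le_rfl
      obtain ⟨_, _, _, h2, _⟩ := hr.2 r le_rfl
      change m = m'
      rw [show m = D a n from h1, show m' = D a n from h2]
  · intro f
    refine mem_fimp.2 fun r _ hf => ?_
    obtain ⟨s, hs, K, -, hK⟩ := sacks (I := I) (A := ℕ) (Ej := fun n a => meets (f n a))
      (fun j a p hp q hq => (ro_meets _).down hp hq) (p := r) (fun n q hq => by
        obtain ⟨t, ht, a, ha⟩ := mem_fex.1 (hf.1 n) q hq
        exact ⟨t, ht, a, ha⟩)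
    obtain ⟨a, ha⟩ := hD fun n => (K n).sup id
    refine ⟨s, hs, mem_fex.2 fun t ht => ⟨t, le_rfl, a, fun n => ?_⟩⟩
    refine mem_fex.2 fun u hu => ?_
    obtain ⟨u', hu', m, hm, hm'⟩ := hK n u (hu.trans ht)
    refine ⟨u', hu', m, mem_fex.2 fun v hv => ⟨v, le_rfl, (K n).sup id, ?_, ?_⟩⟩
    · exact ⟨(ro_meets _).down hm' hv, mem_meets_of_mem (show (K n).sup id = D a n by rw [ha])⟩
    · exact Finset.le_sup (f := id) hm

end Pool.Agent.H686R2.Sil
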