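import Pool.Agent.H686R2.Sil.Forc

/-!
# Working with a name of a P-point
-/

set_option autoImplicit false

namespace Pool.Agent.H686R2.Sil

variable {P : Type} [Preorder P] {W : Set ((ℕ → Set P) × P)} {p0 : P}

/-- the semantic content of `p0 ∈ IsPPointName W` -/
structure PP (W : Set ((ℕ → Set P) × P)) (p0 : P) : Prop where
  compl : ∀ q ≤ p0, ∀ x y : ℕ → Set P,
    (∀ n, ∀ r ≤ q, (r ∈ meets (y n) ↔ r ∈ fnot (meets (x n)))) →
    ∃ r ≤ q, r ∈ fmem x W ∨ r ∈ fmem y W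
  inter : ∀ q ≤ p0, ∀ x y z : ℕ → Set P, q ∈ fmem x W → q ∈ fmem y W →
    (∀ n, ∀ r ≤ q, (r ∈ meets (z n) ↔ r ∈ meets (x n) ∧ r ∈ meets (y n))) → q ∈ fmem z W
  sup : ∀ q ≤ p0, ∀ x y : ℕ → Set P, q ∈ fmem x W →
    (∀ n, ∀ r ≤ q, r ∈ meets (x n) → r ∈ meets (y n)) → q ∈ fmem y W
  inf : ∀ q ≤ p0, ∀ x : ℕ → Set P, q ∈ fmem x W → ∀ N : ℕ, ∃ r ≤ q, ∃ n, N ≤ n ∧ r ∈ meets (x n)
  pp : ∀ q ≤ p0, ∀ x : ℕ → ℕ → Set P, (∀ j, q ∈ fmem (x j) W) →
    ∃ r ≤ q, ∃ y : ℕ → Set P, r ∈ fmem y W ∧ ∀ j, ∀ s ≤ r, ∃ t ≤ s, ∃ N : ℕ, ∀ n, N ≤ n →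
      ∀ u ≤ t, u ∈ meets (y n) → u ∈ meets (x j n)

theorem pp_of_mem (h : p0 ∈ IsPPointName W) : PP W p0 := by
  obtain ⟨h1, h2, h3, h4, h5⟩ := h
  refine ⟨?_, ?_, ?_, ?_, ?_⟩
  · intro q hq x y hxy
    have := mem_fimp.1 (h1 x y) q hq fun n =>
      (mem_fiff_ro (ro_meets _) (ro_fnot (ro_meets _))).2 (hxy n)
    obtain ⟨r, hr, hr'⟩ := this
    obtain ⟨s, hs, hs'⟩ := mem_for2.1 hr' r le_rfl
    exact ⟨s, hs.trans hr, hs'⟩
  · intro q hq x y z hx hy hz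
    refine (mem_fimp_ro (ro_fand (ro_fand (ro_fmem _ _) (ro_fmem _ _)) (ro_fall fun n =>
      ro_fiff (ro_meets _) (ro_fand (ro_meets _) (ro_meets _)))) (ro_fmem _ _)).1
      (h2 x y z) q hq ⟨⟨hx, hy⟩, fun n => ?_⟩
    exact (mem_fiff_ro (ro_meets _) (ro_fand (ro_meets _) (ro_meets _))).2 (hz n)
  · intro q hq x y hx hy
    refine (mem_fimp_ro (ro_fand (ro_fmem _ _) (ro_fall fun n => ro_fimp (ro_meets _)))
      (ro_fmem _ _)).1 (h3 x y) q hq ⟨hx, fun n => ?_⟩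
    exact (mem_fimp_ro (ro_meets _) (ro_meets _)).2 (hy n)
  · intro q hq x hx N
    obtain ⟨r, hr, hr'⟩ := mem_fimp.1 (h4 x) q hq hx
    obtain ⟨s, hs, n, hn, hn'⟩ := mem_fex.1 (hr' N) r le_rfl
    exact ⟨s, hs.trans hr, n, hn, hn'⟩
  · intro q hq x hx
    obtain ⟨r, hr, hr'⟩ := mem_fimp.1 (h5 x) q hq hx
    obtain ⟨s, hs, y, hy, hy'⟩ := mem_fex.1 hr' r le_rfl
    refine ⟨s, hs.trans hr, y, hy, fun j t ht => ?_⟩
    obtain ⟨t', ht', N, hN⟩ := mem_fex.1 (hy' j) t ht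
    exact ⟨t', ht', N, fun n hn =>
      (mem_fimp_ro (ro_meets _) (ro_meets _)).1 (hN n hn)⟩

namespace PP

theorem mono (h : PP W p0) {p1 : P} (h1 : p1 ≤ p0) : PP W p1 :=
  ⟨fun q hq => h.compl q (hq.trans h1), fun q hq => h.inter q (hq.trans h1),
    fun q hq => h.sup q (hq.trans h1), fun q hq => h.inf q (hq.trans h1),
    fun q hq => h.pp q (hq.trans h1)⟩

theorem full (h : PP W p0) : p0 ∈ fmem (fun _ => Set.univ) W := by
  refine (ro_fmem _ _).reg fun r hr => ?_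
  obtain ⟨s, hs, hs'⟩ := h.compl r hr (fun _ => Set.univ) (fun _ => ∅) (fun n t ht => by
    constructor
    · intro hm
      obtain ⟨_, _, _, h', _⟩ := hm t le_rfl
      exact absurd h' (Set.notMem_empty _)
    · intro hm
      exact absurd (mem_meets_of_mem (Set.mem_univ t)) (hm t le_rfl))
  rcases hs' with hs' | hs'
  · exact ⟨s, hs, hs'⟩
  · obtain ⟨t, ht, n, _, hn⟩ := h.inf s (hs.trans hr) _ hs' 0
    obtain ⟨_, _, _, h', _⟩ := hn t le_rfl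
    exact absurd h' (Set.notMem_empty _)

/-- the name of the complement -/
def cmp (x : ℕ → Set P) : ℕ → Set P := fun n => fnot (meets (x n))

theorem meets_cmp (x : ℕ → Set P) (n : ℕ) : meets (cmp x n) = fnot (meets (x n)) :=
  meets_ro (ro_fnot (ro_meets _))

theorem compl' (h : PP W p0) (x : ℕ → Set P) : ∃ r ≤ p0, r ∈ fmem x W ∨ r ∈ fmem (cmp x) W :=
  h.compl p0 le_rfl x (cmp x) fun n r _ => by rw [meets_cmp]

/-- the name of the intersection -/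
def itr (x y : ℕ → Set P) : ℕ → Set P := fun n => fand (meets (x n)) (meets (y n))

theorem mem_meets_itr {x y : ℕ → Set P} {n : ℕ} {p : P} :
    p ∈ meets (itr x y n) ↔ p ∈ meets (x n) ∧ p ∈ meets (y n) := by
  rw [show meets (itr x y n) = itr x y n from meets_ro (ro_fand (ro_meets _) (ro_meets _))]
  exact Iff.rfl

theorem inter' (h : PP W p0) {x y : ℕ → Set P} (hx : p0 ∈ fmem x W) (hy : p0 ∈ fmem y W) :
    p0 ∈ fmem (itr x y) W :=
  h.inter p0 le_rfl x y _ hx hy fun _ _ _ => mem_meets_itr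

theorem inf2 (h : PP W p0) {x y : ℕ → Set P} (hx : p0 ∈ fmem x W) (hy : p0 ∈ fmem y W) (N : ℕ) :
    ∃ r ≤ p0, ∃ n, N ≤ n ∧ r ∈ meets (x n) ∧ r ∈ meets (y n) := by
  obtain ⟨r, hr, n, hn, hn'⟩ := h.inf p0 le_rfl _ (h.inter' hx hy) N
  exact ⟨r, hr, n, hn, mem_meets_itr.1 hn'⟩

theorem part (h : PP W p0) (N k0 : ℕ) (x : ℕ → ℕ → Set P)
    (hcov : ∀ k, k0 ≤ k → ∀ r ≤ p0, ∃ s ≤ r, ∃ i < N, s ∈ meets (x i k)) :
    ∃ r ≤ p0, ∃ i < N, r ∈ fmem (x i) W := by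
  by_contra hcon
  push Not at hcon
  have key : ∀ M ≤ N, ∃ r ≤ p0, ∃ w : ℕ → Set P, r ∈ fmem w W ∧
      ∀ i < M, ∀ k, ∀ s ≤ r, s ∈ meets (w k) → s ∉ meets (x i k) := by
    intro M
    induction M with
    | zero => exact fun _ => ⟨p0, le_rfl, _, h.full, fun i hi => absurd hi (Nat.not_lt_zero i)⟩
    | succ M ih =>
      intro hM
      obtain ⟨r, hr, w, hw, hw'⟩ := ih (by omega)
      obtain ⟨s, hs, hs'⟩ := (h.mono hr).compl' (x M)
      rcases hs' with hs' | hs'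
      · exact absurd hs' (hcon s (hs.trans hr) M (by omega))
      · refine ⟨s, hs.trans hr, itr w (cmp (x M)),
          (h.mono (hs.trans hr)).inter' ((ro_fmem _ _).down hw hs) hs', fun i hi k t ht htm => ?_⟩
        obtain ⟨h1, h2⟩ := mem_meets_itr.1 htm
        rcases Nat.lt_succ_iff_lt_or_eq.1 hi with hi | rfl
        · exact hw' i hi k t (ht.trans hs) h1
        · rw [meets_cmp] at h2
          exact h2 t le_rfl
  obtain ⟨r, hr, w, hw, hw'⟩ := key N le_rfl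
  obtain ⟨s, hs, k, hk, hk'⟩ := h.inf r hr w hw k0
  obtain ⟨t, ht, i, hi, hti⟩ := hcov k hk s (hs.trans hr)
  exact hw' i hi k t (ht.trans hs) ((ro_meets _).down hk' ht) hti

end PP

/-- the canonical name of a ground model subset of `ℕ` -/
def ck (B : ℕ → Prop) : ℕ → Set P := fun n => {_p | B n}

theorem mem_meets_ck {B : ℕ → Prop} {n : ℕ} {p : P} : p ∈ meets (ck (P := P) B n) ↔ B n := by
  constructor
  · intro h
    obtain ⟨_, _, _, h', _⟩ := h p le_rfl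
    exact h'
  · intro h
    exact mem_meets_of_mem h

end Pool.Agent.H686R2.Sil
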